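import Mathlib
import Pool.Agent.TH784.SD.Sid

/-!
# Sidon sets of size `p` in the plane over `F_p`: the complement of the differences is a line or it
determines at least `(3 p + 5) / 4` directions

Let `S` be a Sidon set with `p` elements in `F_p × F_p` and let `T` be the set which consists of `0`
and of the points that are not differences of two elements of `S`. The conjecture says that `T` is
a subgroup (a line through `0`).

**Theorem.** Assume that `T` is not a subgroup. Let `k` be the least positive integer such that some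
moment `∑_{s ∈ S} s₁ ^ i s₂ ^ j` with `i + j = k` is not zero. Then `1 ≤ k ≤ (p - 1) / 4`, and at most
`k` of the `p + 1` directions are not determined by `T` (that is, at most `k (p - 1)` of the `p² - 1`
nonzero linear forms are injective on `T`).

So `T` is a subgroup if the moments of `S` of degree at most `(p - 1) / 4` vanish, or if more than
`(p - 1) / 4` directions are not determined by `T`. In general a set of `p` points which is not a line
can have as many as `(p - 1) / 2` directions that it does not determine.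

Proof. For a linear form `ℓ` put `M_j = ∑_{s ∈ S} ℓ(s) ^ j`. Since the differences of different
elements of `S` are different, `∑_{t ∈ T} ℓ(t) ^ m = - ∑_j (-1) ^ (m - j) C(m, j) M_j M_{m - j}` for
`m ≥ 1`. If `M_j = 0` for `1 ≤ j ≤ (p - 1) / 4`, then `∑_{t ∈ T} ℓ(t) ^ m = 0` for
`1 ≤ m ≤ (p - 1) / 2`, so `∏_{t ∈ T} (X - ℓ(t)) = X ^ p + g` with `deg g ≤ (p - 1) / 2`, and a
lacunary polynomial of this kind which is a product of linear factors is `X ^ p - X` or
`(X - c) ^ p` (Rédei): `ℓ` is bijective or zero on `T`. If `M_j = 0` for `1 ≤ j < k`, then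
`∑_{t ∈ T} ℓ(t) ^ (2 k) = ± C(2 k, k) M_k ²`, and this is zero if `ℓ` is bijective on `T` and
`2 k < p - 1`. So the forms that are injective on `T` are zeros of the binary form
`∑_{s ∈ S} (a s₁ + b s₂) ^ k` of degree `k`, which is not zero.
-/

set_option autoImplicit false

namespace Pool.Agent.Results.MP_bd8c52_co.RedeiDirections

open Finset

/-- `0` and the points that are not differences of two elements of `S` -/
def T {p : ℕ} [NeZero p] (S : Finset (ZMod p × ZMod p)) : Finset (ZMod p × ZMod p) :=
  univ.filter fun x => x = 0 ∨ ∀ a ∈ S, ∀ b ∈ S, a - b ≠ x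

/-- the linear form `w₁ x₁ + w₂ x₂` -/
def form {p : ℕ} (w x : ZMod p × ZMod p) : ZMod p := w.1 * x.1 + w.2 * x.2

/-- the moment `∑ s₁ ^ i s₂ ^ j` of `S` -/
def moment {p : ℕ} (S : Finset (ZMod p × ZMod p)) (i j : ℕ) : ZMod p :=
  ∑ s ∈ S, s.1 ^ i * s.2 ^ j

/-- **Theorem.** Let `S` be a Sidon set of size `p` in `F_p × F_p`. Then `T` is a subgroup, or the
least degree `k ≥ 1` of a nonzero moment of `S` is at most `(p - 1) / 4` and at most `k (p - 1)` of
the nonzero linear forms are injective on `T`. -/
theorem result (p : ℕ) [Fact p.Prime] (S : Finset (ZMod p × ZMod p)) (hcard : S.card = p)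
    (hS : ∀ a ∈ S, ∀ b ∈ S, ∀ c ∈ S, ∀ d ∈ S,
      a + b = c + d → (a = c ∧ b = d) ∨ (a = d ∧ b = c)) :
    (∃ H : AddSubgroup (ZMod p × ZMod p), ∀ x, x ∈ H ↔ x ∈ T S) ∨
    ∃ k : ℕ, 1 ≤ k ∧ 4 * k ≤ p - 1 ∧
      (∃ i j, i + j = k ∧ moment S i j ≠ 0) ∧
      (∀ i j, 1 ≤ i + j → i + j < k → moment S i j = 0) ∧
      (univ.filter fun w : ZMod p × ZMod p => w ≠ 0 ∧ Set.InjOn (form w) (T S)).card
        ≤ k * (p - 1) :=
  Pool.Agent.TH784.SD.main S hcard hS

end Pool.Agent.Results.MP_bd8c52_co.RedeiDirections
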